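import Pool.Agent.helper69.AG.Wire

open scoped MatrixGroups LinearAlgebra.Projectivization
open Matrix UpperHalfPlane

namespace Pool.Agent.Results.MP_a29257_gt.ExactlyOne

open AdSBend

/-- Bending multicurves of AdS convex cores. Let `S = ℍ / Γ` be a closed oriented surface of genus
at least two and let `lm`, `lp` be two weighted multicurves on `S` that together fill `S`. Then
there is one and, up to isotopy, only one GHMC AdS structure on `S × ℝ` whose convex core has the
past boundary component bent exactly along `lm` and the future boundary component bent exactly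
along `lp`. -/
theorem result (Γ : Subgroup SL(2, ℝ)) (hΓ : IsClosedSurfaceGroup Γ)
    (lm lp : WeightedMulticurve Γ) (hfill : Fill lm lp) :
    ∃ M : GHMC Γ, (M.PastBending lm ∧ M.FutureBending lp) ∧
      ∀ M' : GHMC Γ, M'.PastBending lm → M'.FutureBending lp → M.Isotopic M' := by
  obtain ⟨M, h1, h2⟩ := XG4_ok Γ hΓ lm lp hfill
  exact ⟨M, ⟨h1, h2⟩, fun M' h3 h4 => FE7_ok Γ hΓ lm lp hfill M M' h1 h2 h3 h4⟩

end Pool.Agent.Results.MP_a29257_gt.ExactlyOne
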